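import Pool.Agent.Y667.RP.Stm
import Pool.Agent.W597.SE.SELC
import Pool.Agent.W672.FK.Lowf
import Pool.Agent.W513.FK.Parf

/-!
# Job 83 (helper285): from pairs to curves
-/

set_option autoImplicit false

namespace Pool.Agent.Y285.RP

open Finset Pool.Agent.W262.RK Pool.Agent.W307.RT Pool.Agent.W307.RS Pool.Agent.W307.SE
  Pool.Agent.W307.FK Pool.Agent.Y667.RP
open Pool.Agent.W29.RT (top_root abs_le_cube abs_le_sq)

/-- the curve `y² = (x + k) (x - (a - k)) (x - (b - k))`, `3 k = a + b` -/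
def cc (a b k : ℤ) : ℤ × ℤ := (a * b - 3 * k ^ 2, k * (a - k) * (b - k))

lemma cc_root {a b k : ℤ} (h : a + b = 3 * k) (x : ℤ) :
    x ^ 3 + (cc a b k).1 * x + (cc a b k).2 = (x - (-k)) * (x - (a - k)) * (x - (b - k)) := by
  unfold cc
  linear_combination (x ^ 2 + 2 * k * x) * h

lemma cc_disc {a b k : ℤ} (h : a + b = 3 * k) :
    4 * (cc a b k).1 ^ 3 + 27 * (cc a b k).2 ^ 2 = -(a ^ 2 * b ^ 2 * (a - b) ^ 2) := by
  have ha : a = 3 * k - b := by linarith
  unfold cc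
  subst ha
  ring

lemma cc_inj {a b k a' b' k' : ℤ} (h : a + b = 3 * k) (h' : a' + b' = 3 * k') (hb : 1 ≤ b)
    (hab : b < a) (hb' : 1 ≤ b') (hab' : b' < a') (he : cc a b k = cc a' b' k') :
    a = a' ∧ b = b' := by
  have H : ∀ x : ℤ, (x - (a - k)) * (x - (b - k)) * (x - (-k)) =
      (x - (a' - k')) * (x - (b' - k')) * (x - (-k')) := by
    intro x
    have h1 := cc_root h x
    have h2 := cc_root h' x
    rw [he] at h1
    linarith
  have t1 := top_root H (by linarith) (by linarith) (by linarith) (by linarith)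
  have H2 : ∀ x : ℤ, (x - k) * (x - (-(b - k))) * (x - (-(a - k))) =
      (x - k') * (x - (-(b' - k'))) * (x - (-(a' - k'))) := by
    intro x
    have := H (-x)
    linear_combination (-1) * this
  have t2 := top_root H2 (by linarith) (by linarith) (by linarith) (by linarith)
  exact ⟨by linarith, by linarith⟩

lemma cc_min {a b k : ℤ} (h : a + b = 3 * k) (hc : IsCoprime a b) {p : ℕ} (hp : p.Prime)
    (h1 : (p : ℤ) ∣ (cc a b k).1) (h2 : (p : ℤ) ∣ (cc a b k).2) : False := by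
  have hpI : Prime (p : ℤ) := Nat.prime_iff_prime_int.1 hp
  have key : ∀ e : ℤ, e ^ 3 + (cc a b k).1 * e + (cc a b k).2 = 0 → (p : ℤ) ∣ e := by
    intro e he
    apply hpI.dvd_of_dvd_pow (n := 3)
    have : e ^ 3 = -((cc a b k).1 * e + (cc a b k).2) := by linarith
    rw [this]
    exact (dvd_neg.2 (dvd_add (h1.mul_right _) h2))
  have k1 := key (-k) (by rw [cc_root h]; ring)
  have k2 := key (a - k) (by rw [cc_root h]; ring)
  have k3 := key (b - k) (by rw [cc_root h]; ring)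
  have ha : (p : ℤ) ∣ a := by
    have := dvd_sub k2 k1
    have e : a - k - -k = a := by ring
    rwa [e] at this
  have hb : (p : ℤ) ∣ b := by
    have := dvd_sub k3 k1
    have e : b - k - -k = b := by ring
    rwa [e] at this
  exact hpI.not_isUnit (hc.isUnit_of_dvd' ha hb)

theorem cc_mem {X H : ℕ} {a b k : ℤ} (h : a + b = 3 * k) (hb : 1 ≤ b) (hab : b < a)
    (haX : a ≤ X) (hc : IsCoprime a b) (hH : 64 * X ^ 6 ≤ H) : cc a b k ∈ Cv 2 H := by
  have hHI : 64 * (X : ℤ) ^ 6 ≤ H := by exact_mod_cast hH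
  set S : ℤ := (X : ℤ) with hS
  have hS0 : 0 < S := by linarith
  have hcf1 : (cc a b k).1 = a * b - 3 * k ^ 2 := rfl
  have hcf2 : (cc a b k).2 = k * (a - k) * (b - k) := rfl
  have hk0 : 0 < k := by linarith
  have hkS : k ≤ S := by linarith
  have hA : |(cc a b k).1| ≤ 2 * S ^ 2 := by
    rw [hcf1, abs_le]
    have e : 3 * (a * b - 3 * k ^ 2) = -(a ^ 2 - a * b + b ^ 2) := by
      have hk : 3 * k = a + b := h.symm
      have : 9 * k ^ 2 = (a + b) ^ 2 := by rw [← hk]; ring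
      linear_combination (-1) * this
    constructor
    · nlinarith
    · nlinarith
  have hB : |(cc a b k).2| ≤ S ^ 3 := by
    rw [hcf2, abs_mul, abs_mul]
    have e1 : |k| ≤ S := by rw [abs_le]; constructor <;> linarith
    have e2 : |a - k| ≤ S := by rw [abs_le]; constructor <;> linarith
    have e3 : |b - k| ≤ S := by rw [abs_le]; constructor <;> linarith
    calc |k| * |a - k| * |b - k|
        ≤ S * S * S := by gcongr
      _ = S ^ 3 := by ring
  have hS6 : 0 ≤ S ^ 6 := by positivity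
  have hA3 : 4 * |(cc a b k).1| ^ 3 ≤ H := by
    calc 4 * |(cc a b k).1| ^ 3 ≤ 4 * (2 * S ^ 2) ^ 3 := by gcongr
      _ = 32 * S ^ 6 := by ring
      _ ≤ H := by linarith
  have hB2 : 27 * (cc a b k).2 ^ 2 ≤ H := by
    calc 27 * (cc a b k).2 ^ 2 = 27 * |(cc a b k).2| ^ 2 := by rw [sq_abs]
      _ ≤ 27 * (S ^ 3) ^ 2 := by gcongr
      _ = 27 * S ^ 6 := by ring
      _ ≤ H := by linarith
  unfold Cv
  simp only [mem_filter, mem_product, mem_Icc]
  have a1 := abs_le_cube (cc a b k).1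
  have a2 := abs_le_sq (cc a b k).2
  have a3 := neg_abs_le (cc a b k).1
  have a4 := le_abs_self (cc a b k).1
  have a5 := neg_abs_le (cc a b k).2
  have a6 := le_abs_self (cc a b k).2
  have a7 : 0 ≤ |(cc a b k).1| ^ 3 := by positivity
  have a8 : 0 ≤ (cc a b k).2 ^ 2 := by positivity
  have ha0 : a ≠ 0 := by intro h; linarith
  have hb0 : b ≠ 0 := by intro h; linarith
  have hab0 : a - b ≠ 0 := by intro h; linarith
  refine ⟨⟨⟨by linarith, by linarith⟩, ⟨by linarith, by linarith⟩⟩, ?_, hA3, hB2, ?_, ?_⟩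
  · rw [cc_disc h]
    have : 0 < a ^ 2 * b ^ 2 * (a - b) ^ 2 := by positivity
    intro h
    linarith
  · intro p hp hh
    exact cc_min h hc hp ((dvd_pow_self _ (by norm_num)).trans hh.1)
      ((dvd_pow_self _ (by norm_num)).trans hh.2)
  · have hk : (k : ℚ) = ((a : ℚ) + b) / 3 := by
      have : (a : ℚ) + b = 3 * k := by exact_mod_cast h
      rw [this]; ring
    apply Pool.Agent.W672.FK.hasT2 (a := (a : ℚ) / 3) (b := (b : ℚ) / 3)
    · rw [hcf1]; push_cast; rw [hk]; ring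
    · rw [hcf2]; push_cast; rw [hk]; ring
    · have : (a : ℚ) ≠ 0 := by exact_mod_cast ha0
      positivity
    · have : (b : ℚ) ≠ 0 := by exact_mod_cast hb0
      positivity
    · have : (a : ℚ) - b ≠ 0 := by exact_mod_cast hab0
      intro h
      apply this
      linarith

/-- the number of the curves -/
theorem cv_card (T H : ℕ) (hT : 1 ≤ T) (hH : H ≤ T ^ 6) : (Cv 2 H).card ≤ (4 * T + 1) ^ 2 := by
  classical
  have hTI : (1 : ℤ) ≤ T := by exact_mod_cast hT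
  have hHI : (H : ℤ) ≤ (T : ℤ) ^ 6 := by exact_mod_cast hH
  have bd : ∀ c ∈ Cv 2 H, ∀ e : ℤ, e ^ 3 + c.1 * e + c.2 = 0 → e ∈ Icc (-(2 * T : ℤ)) (2 * T) := by
    intro c hc e he
    unfold Cv at hc
    simp only [mem_filter, mem_product, mem_Icc] at hc
    obtain ⟨-, -, h1, h2, -, -⟩ := hc
    have hA : |c.1| ≤ (T : ℤ) ^ 2 := by
      by_contra hlt
      push Not at hlt
      have : ((T : ℤ) ^ 2) ^ 3 < |c.1| ^ 3 := by gcongr
      have e6 : ((T : ℤ) ^ 2) ^ 3 = (T : ℤ) ^ 6 := by ring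
      have hT6 : 0 < (T : ℤ) ^ 6 := by positivity
      linarith
    have hB : |c.2| ≤ (T : ℤ) ^ 3 := by
      by_contra hlt
      push Not at hlt
      have : ((T : ℤ) ^ 3) ^ 2 < |c.2| ^ 2 := by gcongr
      have e6 : ((T : ℤ) ^ 3) ^ 2 = (T : ℤ) ^ 6 := by ring
      have hT6 : 0 < (T : ℤ) ^ 6 := by positivity
      rw [sq_abs] at this
      linarith
    have h3 : |e| ^ 3 ≤ |c.1| * |e| + |c.2| := by
      rw [← abs_pow, ← abs_mul]
      have : e ^ 3 = -(c.1 * e + c.2) := by linarith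
      rw [this, abs_neg]
      exact abs_add_le _ _
    have h4 : |e| ≤ 2 * T := by
      by_contra hlt
      push Not at hlt
      have h5 : (2 * (T : ℤ)) ^ 2 ≤ |e| ^ 2 := by gcongr
      have h6 : (2 * (T : ℤ)) ^ 2 * |e| ≤ |e| ^ 3 := by
        calc (2 * (T : ℤ)) ^ 2 * |e| ≤ |e| ^ 2 * |e| := by gcongr
          _ = |e| ^ 3 := by ring
      have h7 : |c.1| * |e| ≤ (T : ℤ) ^ 2 * |e| := by gcongr
      have h8 : (T : ℤ) ^ 2 * (2 * T) ≤ (T : ℤ) ^ 2 * |e| := by gcongr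
      have hT3 : 0 < (T : ℤ) ^ 3 := by positivity
      nlinarith
    rw [mem_Icc]
    exact abs_le.1 h4
  have ex : ∀ c ∈ Cv 2 H, ∃ f : ℤ × ℤ, f.1 ^ 3 + c.1 * f.1 + c.2 = 0 ∧
      f.2 ^ 3 + c.1 * f.2 + c.2 = 0 ∧ f.1 ≠ f.2 := by
    intro c hc
    unfold Cv at hc
    simp only [mem_filter, mem_product, mem_Icc] at hc
    obtain ⟨-, h0, -, -, -, h6⟩ := hc
    obtain ⟨f, g1, -, h1, h2, h3, e1, e2, e3, hx, k1, k2⟩ := Pool.Agent.W513.FK.exRl c h0 h6
    refine ⟨(e2, e3), ?_, ?_, ?_⟩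
    · rw [hx]; ring
    · rw [hx]; ring
    · intro h
      change e2 = e3 at h
      rw [h, k2] at k1
      have g2 : (f.1 : ℤ) ≠ 0 := by
        have : f.1 ≠ 0 := by omega
        exact_mod_cast this
      exact h3 (mul_left_cancel₀ g2 k1).symm
  choose! f hf using ex
  have h1 : (Cv 2 H).card ≤ (Icc (-(2 * T : ℤ)) (2 * T) ×ˢ Icc (-(2 * T : ℤ)) (2 * T)).card := by
    apply card_le_card_of_injOn f
    · intro c hc
      have hc' : c ∈ Cv 2 H := hc
      have := hf c hc'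
      rw [mem_coe, mem_product]
      exact ⟨bd c hc' _ this.1, bd c hc' _ this.2.1⟩
    · intro c hc c' hc' hcc
      have hc1 : c ∈ Cv 2 H := hc
      have hc1' : c' ∈ Cv 2 H := hc'
      obtain ⟨h1, h2, h3⟩ := hf c hc1
      obtain ⟨h1', h2', h3'⟩ := hf c' hc1'
      rw [← hcc] at h1' h2'
      have hA : c.1 = c'.1 := by
        have : (c.1 - c'.1) * ((f c).1 - (f c).2) = 0 := by linear_combination h1 - h2 - h1' + h2'
        have := (mul_eq_zero.mp this).resolve_right (sub_ne_zero.mpr h3)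
        linarith
      have hB : c.2 = c'.2 := by
        rw [hA] at h1
        linarith
      exact Prod.ext hA hB
  refine h1.trans (le_of_eq ?_)
  rw [card_product, Int.card_Icc]
  have : ((2 * T : ℤ) + 1 - -(2 * T)).toNat = 4 * T + 1 := by omega
  rw [this]
  ring

theorem CV : St_CV := by
  classical
  rintro ⟨c, hc, X0, hX0⟩
  refine ⟨c / 400, by positivity, 64 * (max X0 1) ^ 6, fun H hH => ?_⟩
  -- the size
  have hex : ∃ X : ℕ, max X0 1 ≤ X ∧ 64 * X ^ 6 ≤ H ∧ H < 64 * (X + 1) ^ 6 := by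
    set P : ℕ → Prop := fun X => 64 * X ^ 6 ≤ H with hP
    have hle : max X0 1 ≤ H := by
      have h1 : max X0 1 ≤ (max X0 1) ^ 6 := Nat.le_self_pow (by norm_num) _
      omega
    refine ⟨Nat.findGreatest P H, Nat.le_findGreatest hle hH, ?_, ?_⟩
    · exact Nat.findGreatest_spec (P := P) hle hH
    · by_contra hlt
      push Not at hlt
      have h2 : Nat.findGreatest P H + 1 ≤ H := by
        have h1 : (Nat.findGreatest P H + 1) ≤ (Nat.findGreatest P H + 1) ^ 6 :=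
          Nat.le_self_pow (by norm_num) _
        omega
      exact Nat.findGreatest_is_greatest (P := P) (Nat.lt_succ_self _) h2 hlt
  obtain ⟨X, hX1, hX2, hX3⟩ := hex
  have hXX0 : X0 ≤ X := (le_max_left _ _).trans hX1
  have hX11 : 1 ≤ X := (le_max_right _ _).trans hX1
  have h1 := hX0 X hXX0
  have h2 : (Cv 2 H).card ≤ (4 * (2 * (X + 1)) + 1) ^ 2 := by
    apply cv_card _ _ (by omega)
    have : (2 * (X + 1)) ^ 6 = 64 * (X + 1) ^ 6 := by ring
    omega
  have h3 : (Cv 2 H).card ≤ 400 * X ^ 2 := by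
    refine h2.trans ?_
    have : 4 * (2 * (X + 1)) + 1 ≤ 20 * X := by omega
    calc (4 * (2 * (X + 1)) + 1) ^ 2 ≤ (20 * X) ^ 2 := by gcongr
      _ = 400 * X ^ 2 := by ring
  have h4 : ((Icc 1 X ×ˢ Icc 1 X).filter (GoodP X)).card ≤
      ((Cv 2 H).filter (fun k : ℤ × ℤ => (SelR k.1 k.2).Finite ∧
      (SelR k.1 k.2).ncard ≤ 8)).card := by
    have facts : ∀ t : ℕ × ℕ, t ∈ (Icc 1 X ×ˢ Icc 1 X).filter (GoodP X) →
        (t.1 : ℤ) + t.2 = 3 * (((t.1 + t.2) / 3 : ℕ) : ℤ) ∧ (1 : ℤ) ≤ t.2 ∧ (t.2 : ℤ) < t.1 ∧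
        (t.1 : ℤ) ≤ X ∧ IsCoprime (t.1 : ℤ) (t.2 : ℤ) ∧ (Sel (t.1 : ℤ) (t.2 : ℤ)).Finite ∧
        (Sel (t.1 : ℤ) (t.2 : ℤ)).ncard ≤ 8 := by
      intro t ht
      rw [mem_filter, mem_product, mem_Icc, mem_Icc] at ht
      obtain ⟨⟨g1, g2⟩, g3, g4, g5, g6, g7, g8, g9, g10, g11⟩ := ht
      refine ⟨by omega, by omega, by omega, by omega, Nat.isCoprime_iff_coprime.2 g9, g10, g11⟩
    apply card_le_card_of_injOn
      (fun t => cc (t.1 : ℤ) (t.2 : ℤ) (((t.1 + t.2) / 3 : ℕ) : ℤ))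
    · intro t ht
      obtain ⟨f1, f2, f3, f4, f5, f6, f7⟩ := facts t ht
      have hm := cc_mem f1 f2 f3 f4 f5 hX2
      rw [mem_coe, mem_filter]
      refine ⟨hm, ?_⟩
      have hD : 4 * (cc (t.1 : ℤ) (t.2 : ℤ) (((t.1 + t.2) / 3 : ℕ) : ℤ)).1 ^ 3 +
          27 * (cc (t.1 : ℤ) (t.2 : ℤ) (((t.1 + t.2) / 3 : ℕ) : ℤ)).2 ^ 2 ≠ 0 := by
        unfold Cv at hm
        simp only [mem_filter] at hm
        exact hm.2.1
      have := Pool.Agent.W597.SE.selc _ _ _ _ _ (t.1 : ℤ) (t.2 : ℤ) 1 hD (cc_root f1) one_ne_zero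
        (by push_cast; ring) (by push_cast; ring) f6
      exact ⟨this.1, this.2.trans f7⟩
    · intro t ht t' ht' he
      obtain ⟨f1, f2, f3, -, -, -, -⟩ := facts t ht
      obtain ⟨f1', f2', f3', -, -, -, -⟩ := facts t' ht'
      obtain ⟨r1, r2⟩ := cc_inj f1 f1' f2 f3 f2' f3' he
      exact Prod.ext (by exact_mod_cast r1) (by exact_mod_cast r2)
  have h3' : ((Cv 2 H).card : ℝ) ≤ 400 * (X : ℝ) ^ 2 := by exact_mod_cast h3
  have h4' : (((Icc 1 X ×ˢ Icc 1 X).filter (GoodP X)).card : ℝ) ≤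
      (((Cv 2 H).filter (fun k : ℤ × ℤ => (SelR k.1 k.2).Finite ∧
      (SelR k.1 k.2).ncard ≤ 8)).card : ℝ) := by exact_mod_cast h4
  calc c / 400 * ((Cv 2 H).card : ℝ) ≤ c / 400 * (400 * (X : ℝ) ^ 2) := by gcongr
    _ = c * (X : ℝ) ^ 2 := by ring
    _ ≤ _ := h1.trans h4'

end Pool.Agent.Y285.RP
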